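import Mathlib
import Pool.Agent.H771R4.SE.AllX2
import Pool.Agent.H74R5.MainA

set_option autoImplicit false

/-! # Artin's conjecture for the integers `D n ^ (2 ^ j)`, `j ≥ 1`, `D` squarefree and `≢ 1 mod 4` -/

namespace Pool.Agent.H981R3.TW

open Finset Filter Topology
open Pool.Agent.H386R2.Artin (PP Good hL gL LC_pos gL_nonneg gL_le_one artinL artinC sumH artinLim
  sumG)
open Pool.Agent.H730R2.AA (rho)
open Pool.Agent.H730R2.AB (gL_rho)
open Pool.Agent.H771R4.SE

/-- Artin's conjecture for `D n ^ (2 ^ j)` -/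
noncomputable def dPow (D : ℤ) (hD : Squarefree D) (hD4 : D % 4 ≠ 1) (j : ℕ) (hj : 1 ≤ j) : Dat where
  Q := fun p a => orderOf ((D : ZMod p) * a ^ (2 ^ j)) = p - 1
  G := fun p => if p ∈ Pool.Agent.H730R2.AA.PR D p then rho p * (1 - (jacobiSym D p : ℝ)) else 0
  A := Pool.Agent.H74R5.artA
  p0 := D.natAbs + 3
  G0 := fun p => by
    split_ifs
    · exact mul_nonneg (rho_nn p) (Pool.Agent.H730R2.AA.ox_jac D p).1
    · exact le_rfl
  G1 := fun p => by
    split_ifs
    · have h1 := (Pool.Agent.H730R2.AA.ox_jac D p).1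
      have h2 := (Pool.Agent.H730R2.AA.ox_jac D p).2
      have h3 := rho_le p
      have h4 := rho_nn p
      calc rho p * (1 - (jacobiSym D p : ℝ)) ≤ 1 * 2 := by gcongr
        _ = 2 := by norm_num
    · norm_num
  loc := by
    classical
    intro p hp hp0 E M L hL2 hE hM hG
    have : Fact p.Prime := ⟨hp⟩
    have hpD : ¬ (p : ℤ) ∣ D := not_dvd_of_lt hD.ne_zero (by omega)
    have hp2 : p ≠ 2 := by omega
    have hD' : (D : ZMod p) ≠ 0 := by rwa [Ne, ZMod.intCast_zmod_eq_zero_iff_dvd]
    have hPR : p ∈ Pool.Agent.H730R2.AA.PR D p := by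
      unfold Pool.Agent.H730R2.AA.PR
      rw [mem_filter, mem_range]
      exact ⟨by omega, hp, hp2, hpD⟩
    have hjac : jacobiSym D p = legendreSym p D := (jacobiSym.legendreSym.to_jacobiSym p D).symm
    simp only [if_pos hPR, hjac]
    have hpd : (p - 1) / 2 = p / 2 := by
      have := hp.eq_two_or_odd
      omega
    have hc : 2 * ((p - 1) / 2) = p - 1 := by
      have := hp.eq_two_or_odd
      omega
    obtain ⟨i, hi⟩ : ∃ i, j = i + 1 := ⟨j - 1, by omega⟩
    have hpow : ∀ q : ℕ, (q : ZMod p) ≠ 0 → ((q : ZMod p) ^ (2 ^ j)) ^ ((p - 1) / 2) = 1 := by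
      intro q hq
      have e : 2 ^ j * ((p - 1) / 2) = (p - 1) * 2 ^ i := by
        rw [hi, pow_succ]
        calc 2 ^ i * 2 * ((p - 1) / 2) = 2 ^ i * (2 * ((p - 1) / 2)) := by ring
          _ = (p - 1) * 2 ^ i := by rw [hc]; ring
      rw [← pow_mul, e, pow_mul, ZMod.pow_card_sub_one_eq_one hq, one_pow]
    rcases legendreSym.eq_one_or_neg_one p hD' with h | h
    · -- quadratic residue
      have h1 : (D : ZMod p) ^ (p / 2) = 1 := by
        have := legendreSym.eq_pow p D
        rw [h] at this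
        rw [← this]
        push_cast; rfl
      have hempty : (E.filter (fun q : ℕ => orderOf ((D : ZMod p) * ((q : ℕ) : ZMod p) ^ (2 ^ j)) =
          p - 1)) = ∅ := by
        rw [filter_eq_empty_iff]
        intro q hq hcon
        have h2 : ((D : ZMod p) * ((q : ℕ) : ZMod p) ^ (2 ^ j)) ^ ((p - 1) / 2) = 1 := by
          rw [mul_pow, hpow q (hE q hq), mul_one, hpd]
          exact h1
        have h3 := orderOf_dvd_of_pow_eq_one h2
        rw [hcon] at h3
        have h4 : 0 < (p - 1) / 2 := by omega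
        have h5 := Nat.le_of_dvd h4 h3
        omega
      have e1 : (1 : ℝ) - ((legendreSym p D : ℤ) : ℝ) = 0 := by rw [h]; push_cast; norm_num
      rw [e1, mul_zero, mul_zero, sub_zero]
      have e2 : ((#(E.filter (fun q : ℕ => orderOf ((D : ZMod p) * ((q : ℕ) : ZMod p) ^ (2 ^ j)) =
          p - 1)) : ℕ) : ℝ) = 0 := by rw [hempty]; simp
      refine le_trans (le_of_eq ?_) (err_nn p E M L hM)
      rw [abs_eq_zero]
      refine Eq.trans ?_ e2
      congr!
    · have h1 : (D : ZMod p) ^ (p / 2) = -1 := by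
        have := legendreSym.eq_pow p D
        rw [h] at this
        rw [← this]
        push_cast; rfl
      have e1 : rho p * ((1 : ℝ) - ((legendreSym p D : ℤ) : ℝ)) = 2 * rho p := by
        rw [h]; push_cast; ring
      rw [e1]
      refine loc_odd hp hp2 E M L hL2 hE hM hG
        (fun q : ℕ => (D : ZMod p) * (q : ZMod p) ^ (2 ^ j)) (fun q hq =>
          mul_ne_zero hD' (pow_ne_zero _ (hE q hq))) (lin_pow2 D hpD j) _ (fun q => ?_)
      refine (@Finset.mem_filter _ _ (fun _ => Classical.propDecidable _) _ _).trans ?_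
      apply and_congr_right
      intro hq
      apply prim_iff_oddP hp2
      rw [mul_pow, ← hpd, hpow q (hE q hq), mul_one, hpd]
      exact h1
  lim := by
    have h := Pool.Agent.H74R5.main_lim4 D hD hD4
    refine h.congr fun x => ?_
    congr 1
    unfold Pool.Agent.H730R2.AA.mainT PP
    rw [← Finset.sum_filter]
    apply Finset.sum_congr _ (fun _ _ => rfl)
    ext p
    unfold Pool.Agent.H730R2.AA.PR
    simp only [mem_filter, mem_range]
    constructor
    · rintro ⟨h1, h2, h3, h4⟩
      exact ⟨⟨h1, h2⟩, by omega, h2, h3, h4⟩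
    · rintro ⟨⟨h1, h2⟩, _, _, h3, h4⟩
      exact ⟨h1, h2, h3, h4⟩

end Pool.Agent.H981R3.TW
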